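import Pool.Agent.H31.VdC

set_option autoImplicit false

open Pool.Agent.H31 Topology

theorem Pool.Agent.Results.MP_19f369_gt.Neg.result :
    ∃ (X : Type) (_ : TopologicalSpace X), TopologicalSpace.MetrizableSpace X ∧
      TopologicalSpace.SeparableSpace X ∧ Nonempty X ∧
      TopologicalSpace.IsTopologicalBasis {s : Set X | IsClopen s} ∧
      (∀ (n : ℕ) (U : Fin n → Set X), (∀ i, IsOpen (U i)) → ⋃ i, U i = Set.univ →
        ∃ V : Fin n → Set X, (∀ i, IsOpen (V i) ∧ V i ⊆ U i) ∧ ⋃ i, V i = Set.univ ∧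
          ∀ i j, i ≠ j → Disjoint (V i) (V j)) ∧
      (∀ x y : X, ∃ h : X ≃ₜ X, h x = y) ∧
      ∃ U ∈ 𝓝 (⟨id, continuous_id⟩ : {f : X → X // Continuous f}),
        ∀ F : Set {f : X → X // Continuous f}, F.Finite →
          ∃ g : {f : X → X // Continuous f}, ∀ u ∈ U, ∀ f ∈ F, g.1 ≠ u.1 ∘ f.1 := by
  refine ⟨VdC.H, inferInstance, inferInstance, inferInstance, inferInstance, VdC.basisH,
    VdC.dim_zero, VdC.homog, ?_⟩
  obtain ⟨U, hU, h⟩ := VdC.not_right_bounded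
  refine ⟨Subtype.val ⁻¹' U, continuous_subtype_val.continuousAt.preimage_mem_nhds hU,
    fun F hF => ?_⟩
  obtain ⟨g, g1, g2⟩ := h _ (hF.image Subtype.val) (by rintro _ ⟨f, -, rfl⟩; exact f.2)
  exact ⟨⟨g, g1⟩, fun u hu f hf => g2 u.1 hu u.2 f.1 ⟨f, hf, rfl⟩⟩
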